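import Pool.Agent.Q79.SY.UP

set_option autoImplicit false

namespace Pool.Agent.Q79.SY

open Finset MeasureTheory
open scoped ENNReal Nat
open Pool.Agent.Q160.SY

/-- the Beta integral with equal parameters -/
theorem beta_eq (m : ℕ) : ∫ v in (0 : ℝ)..1, (v * (1 - v)) ^ m =
    (m ! : ℝ) ^ 2 / ((2 * m + 1)! : ℝ) := by
  induction m with
  | zero => simp
  | succ m ih =>
    have h1 : ∀ x ∈ Set.uIcc (0 : ℝ) 1, HasDerivAt
        (fun v : ℝ => (1 - 2 * v) * (v * (1 - v)) ^ (m + 1))
        (((m : ℝ) + 1) * (x * (1 - x)) ^ m - (4 * m + 6) * (x * (1 - x)) ^ (m + 1)) x := by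
      intro x _
      have h2 : HasDerivAt (fun v : ℝ => v * (1 - v)) (1 - 2 * x) x := by
        have := (hasDerivAt_id x).mul ((hasDerivAt_id x).const_sub 1)
        simp only [id_eq, Pi.mul_def] at this
        exact this.congr_deriv (by ring)
      have h3 : HasDerivAt (fun v : ℝ => 1 - 2 * v) (-2) x := by
        have := ((hasDerivAt_id x).const_mul 2).const_sub 1
        simp only [id_eq] at this
        exact this.congr_deriv (by ring)
      have h4 := h3.mul (h2.pow (m + 1))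
      simp only [Pi.mul_def, Pi.pow_def] at h4
      refine h4.congr_deriv ?_
      rw [Nat.add_sub_cancel]
      push_cast
      ring
    have h5 := intervalIntegral.integral_eq_sub_of_hasDerivAt h1
      (Continuous.intervalIntegrable (by fun_prop) _ _)
    rw [intervalIntegral.integral_sub (Continuous.intervalIntegrable (by fun_prop) _ _)
      (Continuous.intervalIntegrable (by fun_prop) _ _), intervalIntegral.integral_const_mul,
      intervalIntegral.integral_const_mul, ih] at h5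
    have h6 : (0 : ℝ) < 4 * m + 6 := by positivity
    have h7 : ((2 * (m + 1) + 1)! : ℝ) = (2 * m + 3) * ((2 * m + 2) * ((2 * m + 1)! : ℝ)) := by
      rw [show 2 * (m + 1) + 1 = (2 * m + 1 + 1) + 1 by ring, Nat.factorial_succ,
        Nat.factorial_succ]
      push_cast
      ring
    have h8 : ((m + 1)! : ℝ) = (m + 1) * (m ! : ℝ) := by
      rw [Nat.factorial_succ]
      push_cast
      ring
    have h9 : (0 : ℝ) < ((2 * m + 1)! : ℝ) := by exact_mod_cast Nat.factorial_pos _
    rw [h7, h8, eq_div_iff (by positivity)]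
    have h10 : (4 * m + 6) * ∫ v in (0 : ℝ)..1, (v * (1 - v)) ^ (m + 1) =
        (m + 1) * ((m ! : ℝ) ^ 2 / ((2 * m + 1)! : ℝ)) := by
      have : (1 - 2 * (1 : ℝ)) * (1 * (1 - 1)) ^ (m + 1) -
        (1 - 2 * (0 : ℝ)) * (0 * (1 - 0)) ^ (m + 1) = 0 := by
        simp
      rw [this] at h5
      linarith
    have h11 : (m + 1) * ((m ! : ℝ) ^ 2 / ((2 * m + 1)! : ℝ)) * ((2 * m + 1)! : ℝ) =
        (m + 1) * (m ! : ℝ) ^ 2 := by
      field_simp
    rw [← h10] at h11
    calc (∫ v in (0 : ℝ)..1, (v * (1 - v)) ^ (m + 1)) *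
          ((2 * m + 3) * ((2 * m + 2) * ((2 * m + 1)! : ℝ)))
        = (m + 1) * ((4 * m + 6) * (∫ v in (0 : ℝ)..1, (v * (1 - v)) ^ (m + 1)) *
          ((2 * m + 1)! : ℝ)) := by ring
      _ = (m + 1) * ((m + 1) * (m ! : ℝ) ^ 2) := by rw [h11]
      _ = ((m + 1) * (m ! : ℝ)) ^ 2 := by ring

open Polynomial in
/-- the polynomials -/
noncomputable def Pl (m k : ℕ) : Fin (k + 1) → ℝ[X] :=
  Fin.cons 1 (fun j : Fin k => X ^ (j : ℕ) *
    (X - C (((j : ℕ) + m + 1 : ℝ) / ((j : ℕ) + 2 * m + 2))))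

theorem Pl_deg (m k : ℕ) (j : Fin (k + 1)) : (Pl m k j).natDegree = (j : ℕ) := by
  refine Fin.cases ?_ (fun i => ?_) j
  · simp [Pl]
  · simp only [Pl, Fin.cons_succ]
    rw [Polynomial.natDegree_mul (pow_ne_zero _ Polynomial.X_ne_zero)
      (Polynomial.X_sub_C_ne_zero _), Polynomial.natDegree_X_pow, Polynomial.natDegree_X_sub_C]
    simp

theorem Pl_monic (m k : ℕ) (j : Fin (k + 1)) : (Pl m k j).Monic := by
  refine Fin.cases ?_ (fun i => ?_) j
  · simp [Pl]
  · simp only [Pl, Fin.cons_succ]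
    exact (Polynomial.monic_X_pow _).mul (Polynomial.monic_X_sub_C _)

/-- the primitives -/
noncomputable def Gp (m k : ℕ) : Fin (k + 1) → ℝ → ℝ :=
  Fin.cons (fun v => ∫ u in (0 : ℝ)..v, (u * (1 - u)) ^ m)
    (fun (j : Fin k) (v : ℝ) => (-(((j : ℕ) : ℝ) + 2 * m + 2)⁻¹) *
      (v ^ (j : ℕ) * (v * (1 - v)) ^ (m + 1)))

theorem Gp_deriv (m k : ℕ) (j : Fin (k + 1)) (x : ℝ) :
    HasDerivAt (Gp m k j) ((x * (1 - x)) ^ m * (Pl m k j).eval x) x := by
  refine Fin.cases ?_ (fun j => ?_) j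
  · simp only [Gp, Pl, Fin.cons_zero, Polynomial.eval_one, mul_one]
    exact intervalIntegral.integral_hasDerivAt_right
      (Continuous.intervalIntegrable (by fun_prop) _ _)
      (Continuous.stronglyMeasurableAtFilter (by fun_prop) _ _)
      (Continuous.continuousAt (by fun_prop))
  · simp only [Gp, Pl, Fin.cons_succ]
    have h2 : HasDerivAt (fun v : ℝ => v * (1 - v)) (1 - 2 * x) x := by
      have := (hasDerivAt_id x).mul ((hasDerivAt_id x).const_sub 1)
      simp only [id_eq, Pi.mul_def] at this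
      exact this.congr_deriv (by ring)
    have h3 := (((hasDerivAt_id x).pow (j : ℕ)).mul (h2.pow (m + 1))).const_mul
      (-(((j : ℕ) : ℝ) + 2 * m + 2)⁻¹)
    simp only [Pi.mul_def, Pi.pow_def, id_eq] at h3
    refine h3.congr_deriv ?_
    simp only [Polynomial.eval_mul, Polynomial.eval_pow, Polynomial.eval_X, Polynomial.eval_sub,
      Polynomial.eval_C]
    have h4 : (0 : ℝ) < ((j : ℕ) : ℝ) + 2 * m + 2 := by positivity
    rw [Nat.add_sub_cancel]
    rcases Nat.eq_zero_or_pos (j : ℕ) with h | h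
    · rw [h]
      simp only [pow_zero, Nat.cast_zero]
      push_cast
      field_simp
      ring
    · obtain ⟨i, hi⟩ : ∃ i, (j : ℕ) = i + 1 := ⟨(j : ℕ) - 1, by omega⟩
      rw [hi, Nat.add_sub_cancel]
      push_cast
      field_simp
      ring

theorem Gp_zero (m k : ℕ) (j : Fin (k + 1)) : Gp m k j 0 = 0 := by
  refine Fin.cases ?_ (fun j => ?_) j
  · simp [Gp]
  · simp [Gp]

theorem Gp_one (m k : ℕ) (j : Fin k) : Gp m k j.succ 1 = 0 := by
  simp [Gp]

theorem t_DOWN : J_DOWN := by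
  intro k m a ha ha01
  set lo : Fin (k + 1) → ℝ := Fin.cons 0 a with hlo
  set hi : Fin (k + 1) → ℝ := Fin.snoc a 1 with hhi
  have hle : ∀ i, lo i ≤ hi i := by
    intro i
    refine Fin.cases ?_ (fun i => ?_) i
    · rw [hlo, Fin.cons_zero]
      rcases Nat.eq_zero_or_pos k with h | h
      · subst h
        have : (0 : Fin 1) = Fin.last 0 := rfl
        rw [hhi, this, Fin.snoc_last]
        exact zero_le_one
      · obtain ⟨k', rfl⟩ : ∃ k', k = k' + 1 := ⟨k - 1, by omega⟩
        have : (0 : Fin (k' + 1 + 1)) = Fin.castSucc 0 := rfl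
        rw [hhi, this, Fin.snoc_castSucc]
        exact (ha01 0).1.le
    · rw [hlo, Fin.cons_succ]
      by_cases h : (i : ℕ) + 1 < k
      · have : i.succ = Fin.castSucc ⟨(i : ℕ) + 1, h⟩ := by
          ext
          simp
        rw [hhi, this, Fin.snoc_castSucc]
        exact (ha (by
          rw [Fin.lt_def]
          simp)).le
      · have : i.succ = Fin.last k := by
          ext
          simp only [Fin.val_succ, Fin.val_last]
          omega
        rw [hhi, this, Fin.snoc_last]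
        exact (ha01 i).2.le
  have h1 : ∀ b : Fin (k + 1) → ℝ, (Matrix.vandermonde b).det * ∏ i, (b i * (1 - b i)) ^ m =
      (Matrix.of fun i j => (fun (j : Fin (k + 1)) (v : ℝ) =>
        (v * (1 - v)) ^ m * (Pl m k j).eval v) j (b i)).det := by
    intro b
    rw [Matrix.det_eval_matrixOfPolynomials_eq_det_vandermonde b (Pl m k) (Pl_deg m k)
      (Pl_monic m k), mul_comm, ← Matrix.det_mul_column]
    rfl
  simp_rw [h1]
  rw [det_int (k + 1) (fun (j : Fin (k + 1)) (v : ℝ) => (v * (1 - v)) ^ m * (Pl m k j).eval v)]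
  swap
  · intro i j
    refine (Continuous.integrableOn_Icc ?_).mono_set Set.Ioo_subset_Icc_self
    have := (Pl m k j).continuous
    fun_prop
  have h2 : (Matrix.of fun i j : Fin (k + 1) => ∫ v in Set.Ioo (lo i) (hi i),
      (fun (j : Fin (k + 1)) (v : ℝ) => (v * (1 - v)) ^ m * (Pl m k j).eval v) j v) =
      Matrix.of fun i j : Fin (k + 1) => Gp m k j (hi i) - Gp m k j (lo i) := by
    ext i j
    simp only [Matrix.of_apply]
    rw [← integral_Ioc_eq_integral_Ioo, ← intervalIntegral.integral_of_le (hle i)]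
    refine intervalIntegral.integral_eq_sub_of_hasDerivAt (fun x _ => Gp_deriv m k j x) ?_
    refine Continuous.intervalIntegrable ?_ _ _
    have := (Pl m k j).continuous
    fun_prop
  rw [h2]
  have h3 : (Matrix.of fun i j : Fin (k + 1) => Gp m k j (hi i)).det =
      (Matrix.of fun i j : Fin (k + 1) => Gp m k j (hi i) - Gp m k j (lo i)).det := by
    refine Matrix.det_eq_of_forall_row_eq_smul_add_pred (fun _ => 1) ?_ ?_
    · intro j
      simp only [Matrix.of_apply]
      rw [hlo, Fin.cons_zero, Gp_zero, sub_zero]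
    · intro i j
      simp only [Matrix.of_apply]
      rw [hlo, Fin.cons_succ, hhi, Fin.snoc_castSucc]
      ring
  rw [← h3, Matrix.det_succ_row _ (Fin.last k), Fin.sum_univ_succ, Finset.sum_eq_zero, add_zero]
  swap
  · intro j _
    simp only [Matrix.of_apply]
    rw [hhi, Fin.snoc_last, Gp_one, mul_zero, zero_mul]
  have h4 : (Matrix.of fun i j : Fin (k + 1) => Gp m k j (hi i)).submatrix (Fin.last k).succAbove
      (0 : Fin (k + 1)).succAbove = Matrix.of fun i j : Fin k =>
        (-(((j : ℕ) : ℝ) + 2 * m + 2)⁻¹) *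
          (Matrix.of fun i j : Fin k => (a i * (1 - a i)) ^ (m + 1) * Matrix.vandermonde a i j) i j := by
    ext i j
    simp only [Matrix.submatrix_apply, Matrix.of_apply, Fin.succAbove_last, Fin.succAbove_zero]
    rw [hhi, Fin.snoc_castSucc]
    simp only [Gp, Fin.cons_succ, Matrix.vandermonde_apply]
    ring
  rw [h4, Matrix.det_mul_row, Matrix.det_mul_column]
  simp only [Matrix.of_apply, Fin.val_last, Fin.val_zero, add_zero]
  rw [hhi, Fin.snoc_last]
  have h5 : Gp m k 0 1 = (m ! : ℝ) ^ 2 / ((2 * m + 1)! : ℝ) := by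
    simp only [Gp, Fin.cons_zero]
    exact beta_eq m
  have h6 : ∏ j : Fin k, (-(((j : ℕ) : ℝ) + 2 * m + 2)⁻¹) =
      (-1) ^ k * (((2 * m + 1)! : ℝ) / ((2 * m + 1 + k)! : ℝ)) := by
    have h7 : ∀ k : ℕ, ∏ j ∈ Finset.range k, (-((j : ℝ) + 2 * m + 2)⁻¹) =
        (-1) ^ k * (((2 * m + 1)! : ℝ) / ((2 * m + 1 + k)! : ℝ)) := by
      intro k
      induction k with
      | zero =>
        have : ((2 * m + 1)! : ℝ) ≠ 0 := by exact_mod_cast Nat.factorial_ne_zero _
        simp [this]
      | succ k ih =>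
        rw [Finset.prod_range_succ, ih, ← add_assoc, Nat.factorial_succ (2 * m + 1 + k)]
        have : ((2 * m + 1 + k)! : ℝ) ≠ 0 := by exact_mod_cast Nat.factorial_ne_zero _
        have h8 : ((k : ℝ) + 2 * m + 2) ≠ 0 := by positivity
        push_cast
        rw [pow_succ]
        have h9 : (2 * (m : ℝ) + 1 + k + 1) ≠ 0 := by positivity
        field_simp
        ring
    rw [← h7 k, ← Fin.prod_univ_eq_prod_range (fun j => -((j : ℝ) + 2 * m + 2)⁻¹) k]
  rw [h5, h6]
  have h10 : ((2 * m + 1)! : ℝ) ≠ 0 := by exact_mod_cast Nat.factorial_ne_zero _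
  have h11 : ((2 * m + 1 + k)! : ℝ) ≠ 0 := by exact_mod_cast Nat.factorial_ne_zero _
  have h12 : ((-1 : ℝ) ^ k) * (-1) ^ k = 1 := by
    rw [← mul_pow]
    simp
  calc (-1 : ℝ) ^ k * ((m ! : ℝ) ^ 2 / ((2 * m + 1)! : ℝ)) *
        ((-1) ^ k * (((2 * m + 1)! : ℝ) / ((2 * m + 1 + k)! : ℝ)) *
          ((∏ i, (a i * (1 - a i)) ^ (m + 1)) * (Matrix.vandermonde a).det))
      = ((-1 : ℝ) ^ k * (-1) ^ k) * ((m ! : ℝ) ^ 2 / ((2 * m + 1)! : ℝ) *
        (((2 * m + 1)! : ℝ) / ((2 * m + 1 + k)! : ℝ))) *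
          ((∏ i, (a i * (1 - a i)) ^ (m + 1)) * (Matrix.vandermonde a).det) := by ring
    _ = (m ! : ℝ) ^ 2 / ((2 * m + 1 + k)! : ℝ) *
        ((Matrix.vandermonde a).det * ∏ i, (a i * (1 - a i)) ^ (m + 1)) := by
      rw [h12]
      field_simp

end Pool.Agent.Q79.SY
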