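import Pool.Agent.Q160.SY.Stm

set_option autoImplicit false

namespace Pool.Agent.Q79.SY

open Finset MeasureTheory
open scoped ENNReal Nat
open Pool.Agent.Q160.SY

/-- the integral of a determinant over a box -/
theorem det_int (k : ℕ) (f : Fin k → ℝ → ℝ) (lo hi : Fin k → ℝ)
    (hf : ∀ i j, IntegrableOn (f j) (Set.Ioo (lo i) (hi i))) :
    ∫ a in Set.univ.pi (fun i : Fin k => Set.Ioo (lo i) (hi i)),
      (Matrix.of fun i j => f j (a i)).det =
      (Matrix.of fun i j => ∫ v in Set.Ioo (lo i) (hi i), f j v).det := by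
  have h1 : ∀ M : Matrix (Fin k) (Fin k) ℝ,
      M.det = ∑ σ : Equiv.Perm (Fin k), (Equiv.Perm.sign σ : ℝ) * ∏ i, M i (σ i) := by
    intro M
    rw [← Matrix.det_transpose, Matrix.det_apply']
    rfl
  have h2 : ∀ a : Fin k → ℝ, (Matrix.of fun i j => f j (a i)).det =
      ∑ σ : Equiv.Perm (Fin k), (Equiv.Perm.sign σ : ℝ) * ∏ i, f (σ i) (a i) := fun a => h1 _
  simp_rw [h2]
  rw [h1, volume_pi, Measure.restrict_pi_pi]
  rw [integral_finsetSum]
  · refine Finset.sum_congr rfl fun σ _ => ?_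
    rw [integral_const_mul,
      integral_fintype_prod_eq_prod (𝕜 := ℝ) (fun (i : Fin k) (v : ℝ) => f (σ i) v)]
    rfl
  · intro σ _
    refine Integrable.const_mul ?_ _
    exact Integrable.fintype_prod fun i => hf i (σ i)

theorem vand_diff (k : ℕ) (b : Fin (k + 1) → ℝ) :
    (Matrix.vandermonde b).det =
      (Matrix.of fun i j : Fin k => b i.succ ^ ((j : ℕ) + 1) - b i.castSucc ^ ((j : ℕ) + 1)).det := by
  have h1 : (Matrix.vandermonde b).det = (Matrix.of (Fin.cons (fun j : Fin (k + 1) => b 0 ^ (j : ℕ))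
      (fun (i : Fin k) (j : Fin (k + 1)) => b i.succ ^ (j : ℕ) - b i.castSucc ^ (j : ℕ)) :
      Fin (k + 1) → Fin (k + 1) → ℝ)).det := by
    refine Matrix.det_eq_of_forall_row_eq_smul_add_pred (fun _ => 1) ?_ ?_
    · intro j
      simp [Matrix.vandermonde]
    · intro i j
      simp [Matrix.vandermonde]
  rw [h1, Matrix.det_succ_column_zero, Fin.sum_univ_succ]
  rw [Finset.sum_eq_zero]
  · simp only [Matrix.of_apply, Fin.cons_zero, Fin.val_zero, pow_zero, one_mul, add_zero]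
    congr 1
  · intro i _
    simp

theorem int_pow (a b : ℝ) (hab : a ≤ b) (j : ℕ) :
    ∫ v in Set.Ioo a b, v ^ j = ((j : ℝ) + 1)⁻¹ * (b ^ (j + 1) - a ^ (j + 1)) := by
  rw [← integral_Ioc_eq_integral_Ioo, ← intervalIntegral.integral_of_le hab, integral_pow]
  rw [div_eq_inv_mul]

theorem t_UP : J_UP := by
  intro k b hb
  have h1 : ∀ a : Fin k → ℝ, (Matrix.vandermonde a).det =
      (Matrix.of fun i j : Fin k => (fun (j : Fin k) (v : ℝ) => v ^ (j : ℕ)) j (a i)).det :=
    fun a => rfl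
  simp_rw [h1]
  rw [det_int k (fun (j : Fin k) (v : ℝ) => v ^ (j : ℕ))]
  · have h2 : (Matrix.of fun i j : Fin k => ∫ v in Set.Ioo (b i.castSucc) (b i.succ),
        (fun (j : Fin k) (v : ℝ) => v ^ (j : ℕ)) j v) = Matrix.of fun i j : Fin k =>
          (((j : ℕ) : ℝ) + 1)⁻¹ * (Matrix.of fun i j : Fin k =>
            b i.succ ^ ((j : ℕ) + 1) - b i.castSucc ^ ((j : ℕ) + 1)) i j := by
      ext i j
      simp only [Matrix.of_apply]
      exact int_pow _ _ (hb i.castSucc_lt_succ).le _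
    rw [h2, Matrix.det_mul_row, ← vand_diff]
    rw [Finset.prod_inv_distrib, Fin.prod_univ_eq_prod_range (fun j => ((j : ℝ) + 1)) k]
    have h3 : ∏ j ∈ Finset.range k, ((j : ℝ) + 1) = (k ! : ℝ) := by
      rw [← Finset.prod_range_add_one_eq_factorial]
      push_cast
      rfl
    rw [h3, div_eq_inv_mul]
  · intro i j
    exact ((continuous_pow _).integrableOn_Icc).mono_set Set.Ioo_subset_Icc_self

end Pool.Agent.Q79.SY
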